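import Pool.Agent.Helper89K9.MA.Stm2
import Pool.Agent.TH163.AC2.Stars

/-!
# [CORE3] circuits of constant depth: `n` parities of `K` bits
-/

set_option autoImplicit false

namespace Pool.Agent.Helper36K9.MA

open Finset
open H568R2 (ov rs Restr Ex wq wq_nonneg wq_sum Ex_mono Ex_add Ex_sum Ex_const Ex_smul)
open Pool.Agent.TH163.AC3 (HasDT)
open Pool.Agent.TH163.AC2 (unif unif_restr unif_mono unif_const)
open Pool.Agent.H699R2.OMV (Prog Vec)
open Pool.Agent.Helper89K9.MA

theorem core3 (hCol : S_COL) (hRow : S_ROW) (hRun : S_RUN) : S_CORE3 := by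
  classical
  intro n K w A J _ inp hinp d k s D0 m' τ q hq0 hq1 hs hD0 hB m C hC T u
  have hp0 : 0 ≤ q ^ d := pow_nonneg hq0 d
  have hp1 : q ^ d ≤ 1 := pow_le_one₀ hq0 (by linarith)
  have hw := wq_nonneg hp0 hp1
  obtain ⟨G, hG⟩ : ∃ G : (Fin n × Fin K → Bool) → Prop, G = fun z =>
    T.out (m z) = u + par z ∧ (T.addrs (m z)).length ≤ τ := ⟨_, rfl⟩
  have hGeq : (univ.filter fun z : Fin n × Fin K → Bool => T.out (m z) = u + par z ∧
      (T.addrs (m z)).length ≤ τ) = univ.filter G := by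
    ext z
    rw [mem_filter, mem_filter, hG]
  rw [hGeq]
  have hcard : (Fintype.card (Fin n × Fin K → Bool) : ℝ) = 2 ^ (n * K) := by
    rw [Fintype.card_fun, Fintype.card_bool, Fintype.card_prod, Fintype.card_fin, Fintype.card_fin]
    push_cast
    rfl
  have hpos : (0 : ℝ) < 2 ^ (n * K) := by positivity
  have h1 : ((univ.filter G).card : ℝ) = 2 ^ (n * K) *
      unif (fun z => if G z then (1 : ℝ) else 0) := by
    unfold unif
    rw [hcard, sum_boole]
    field_simp
  rw [h1]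
  apply mul_le_mul_of_nonneg_left _ hpos.le
  rw [unif_restr (q ^ d)]
  -- the bad events
  obtain ⟨b1, hb1⟩ : ∃ b1 : Fin n → Restr (Fin n × Fin K) → ℝ, b1 = fun r ρ =>
    if (univ.filter fun c => ρ (r, c) = none).card < D0 then (1 : ℝ) else 0 := ⟨_, rfl⟩
  obtain ⟨b2, hb2⟩ : ∃ b2 : A × Fin w → Restr (Fin n × Fin K) → ℝ, b2 = fun ai ρ =>
    if ¬ HasDT s (rs (fun z => (C ai.1 ai.2).eval fun j => inp j z) ρ) then (1 : ℝ) else 0 :=
    ⟨_, rfl⟩
  have hb1n : ∀ r ρ, 0 ≤ b1 r ρ := by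
    intro r ρ
    rw [hb1]
    dsimp only
    split_ifs <;> norm_num
  have hb2n : ∀ ai ρ, 0 ≤ b2 ai ρ := by
    intro ai ρ
    rw [hb2]
    dsimp only
    split_ifs <;> norm_num
  have hpt : ∀ ρ : Restr (Fin n × Fin K),
      unif (fun x => if G (ov ρ x) then (1 : ℝ) else 0) ≤
        1 / 2 ^ m' + (∑ r, b1 r ρ + ∑ ai, b2 ai ρ) := by
    intro ρ
    have hone : unif (fun x => if G (ov ρ x) then (1 : ℝ) else 0) ≤ 1 := by
      refine (unif_mono (G := fun _ => (1 : ℝ)) fun x => ?_).trans (le_of_eq (unif_const 1))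
      split_ifs <;> norm_num
    have hm0 : (0 : ℝ) ≤ 1 / 2 ^ m' := by positivity
    have hs1 : 0 ≤ ∑ r, b1 r ρ := sum_nonneg fun r _ => hb1n r ρ
    have hs2 : 0 ≤ ∑ ai, b2 ai ρ := sum_nonneg fun ai _ => hb2n ai ρ
    by_cases hr : ∃ r, (univ.filter fun c => ρ (r, c) = none).card < D0
    · obtain ⟨r, hr⟩ := hr
      have h2 : 1 ≤ ∑ r, b1 r ρ := by
        refine le_trans ?_ (single_le_sum (fun r _ => hb1n r ρ) (mem_univ r))
        rw [hb1]
        dsimp only
        rw [if_pos hr]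
      linarith
    by_cases ha : ∃ ai : A × Fin w,
        ¬ HasDT s (rs (fun z => (C ai.1 ai.2).eval fun j => inp j z) ρ)
    · obtain ⟨ai, hai⟩ := ha
      have h2 : 1 ≤ ∑ ai, b2 ai ρ := by
        refine le_trans ?_ (single_le_sum (fun ai _ => hb2n ai ρ) (mem_univ ai))
        rw [hb2]
        dsimp only
        rw [if_pos hai]
      linarith
    have h3 : ∀ a i, HasDT s (rs (fun z => m z a i) ρ) := by
      intro a i
      have h4 : HasDT s (rs (fun z => (C a i).eval fun j => inp j z) ρ) := by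
        by_contra h5
        exact ha ⟨(a, i), h5⟩
      have h5 : (fun z => m z a i) = fun z => (C a i).eval fun j => inp j z := by
        funext z
        exact (hC a i).2.2 z
      rw [h5]
      exact h4
    have h4 : ∀ r, D0 ≤ (univ.filter fun c => ρ (r, c) = none).card := by
      intro r
      by_contra h5
      exact hr ⟨r, not_le.1 h5⟩
    have h5 := hRun n K w A m T u ρ s D0 m' τ h3 h4 hD0 hB
    have h6 : unif (fun x => if G (ov ρ x) then (1 : ℝ) else 0) ≤ 1 / 2 ^ m' := by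
      unfold unif
      rw [hcard, sum_boole, div_le_div_iff₀ hpos (by positivity), one_mul]
      have h7 : (univ.filter fun x : Fin n × Fin K → Bool => G (ov ρ x)) =
          (univ.filter fun z : Fin n × Fin K → Bool =>
            T.out (m (ov ρ z)) = u + par (ov ρ z) ∧ (T.addrs (m (ov ρ z))).length ≤ τ) := by
        ext z
        rw [mem_filter, mem_filter, hG]
      rw [h7]
      exact_mod_cast h5
    linarith
  refine (Ex_mono hw hpt).trans ?_
  rw [Ex_add, Ex_const (wq_sum (q ^ d)), Ex_add, Ex_sum, Ex_sum]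
  have e1 : ∑ r, Ex (wq (q ^ d)) (b1 r) ≤ n * (2 ^ D0 * (1 - q ^ d / 2) ^ K) := by
    have h2 : ∀ r ∈ (univ : Finset (Fin n)), Ex (wq (q ^ d)) (b1 r) ≤
        2 ^ D0 * (1 - q ^ d / 2) ^ K := by
      intro r _
      rw [hb1]
      exact hRow n K r (q ^ d) hp0 hp1 D0
    refine (sum_le_card_nsmul _ _ _ h2).trans ?_
    rw [card_univ, Fintype.card_fin, nsmul_eq_mul]
  have e2 : ∑ ai, Ex (wq (q ^ d)) (b2 ai) ≤ (Fintype.card A * w : ℕ) *
      (d * 2 ^ k * (12 * s * q) ^ (s + 1)) := by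
    have h2 : ∀ ai ∈ (univ : Finset (A × Fin w)), Ex (wq (q ^ d)) (b2 ai) ≤
        d * 2 ^ k * (12 * s * q) ^ (s + 1) := by
      intro ai _
      rw [hb2]
      refine (hCol (Fin n × Fin K) J (C ai.1 ai.2) inp hinp q hq0 hq1 s d hs
        (hC ai.1 ai.2).2.1).trans ?_
      apply mul_le_mul_of_nonneg_right _ (by positivity)
      apply mul_le_mul_of_nonneg_left _ (by positivity)
      exact_mod_cast (hC ai.1 ai.2).1
    refine (sum_le_card_nsmul _ _ _ h2).trans ?_
    rw [card_univ, Fintype.card_prod, Fintype.card_fin, nsmul_eq_mul]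
  linarith

end Pool.Agent.Helper36K9.MA
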