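import Pool.Agent.Helper89K9.MA.Stm2

/-!
# [RUN] runs of a program on a subcube where the bits of the memory have shallow decision trees
-/

set_option autoImplicit false

namespace Pool.Agent.Helper36K9.MA

open Finset
open H568R2 (ov rs Restr)
open Pool.Agent.TH163.AC3 (HasDT)
open Pool.Agent.H699R2.OMV (Prog Vec)
open Pool.Agent.Helper89K9.MA (par)

lemma prog_congr {A W O : Type} (P : Prog A W O) (m m' : A → W)
    (h : ∀ a ∈ P.addrs m, m' a = m a) : P.out m' = P.out m ∧ P.addrs m' = P.addrs m := by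
  induction P with
  | done o => exact ⟨rfl, rfl⟩
  | probe a k ih =>
    have ha : m' a = m a := h a (by simp [Prog.addrs])
    show (k (m' a)).out m' = (k (m a)).out m ∧
      a :: (k (m' a)).addrs m' = a :: (k (m a)).addrs m
    rw [ha]
    have := ih (m a) (fun b hb => h b (by simp [Prog.addrs, hb]))
    exact ⟨this.1, by rw [this.2]⟩

/-- flip the entries in `F` -/
def fl {V : Type} [DecidableEq V] (F : Finset V) (x : V → Bool) : V → Bool :=
  fun e => if e ∈ F then !(x e) else x e

lemma fl_fl {V : Type} [DecidableEq V] (F : Finset V) (x : V → Bool) : fl F (fl F x) = x := by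
  funext e
  unfold fl
  by_cases h : e ∈ F
  · rw [if_pos h, if_pos h, Bool.not_not]
  · rw [if_neg h, if_neg h]

section

variable {n K w : ℕ} {A : Type} (m : (Fin n × Fin K → Bool) → A → Fin w → Bool)
  (T : Prog A (Fin w → Bool) (Vec n)) (ρ : Restr (Fin n × Fin K))
  (J : A → Fin w → Pool.Agent.TH163.AC3.Tree (Fin n × Fin K))

open Classical in
/-- the entries which are read -/
noncomputable def rd (x : Fin n × Fin K → Bool) : Finset (Fin n × Fin K) :=
  univ.filter (fun e => ∃ a ∈ T.addrs (m (ov ρ x)), ∃ i, e ∈ (J a i).reads x)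

lemma card_rd (s : ℕ) (hs : ∀ a i, (J a i).depth ≤ s) (x : Fin n × Fin K → Bool) :
    (rd m T ρ J x).card ≤ (T.addrs (m (ov ρ x))).length * (w * s) := by
  classical
  have h1 : rd m T ρ J x ⊆ (T.addrs (m (ov ρ x))).toFinset.biUnion
      (fun a => univ.biUnion fun i : Fin w => (J a i).reads x) := by
    intro e he
    unfold rd at he
    obtain ⟨a, ha, i, hi⟩ := (mem_filter.1 he).2
    rw [mem_biUnion]
    exact ⟨a, List.mem_toFinset.2 ha, mem_biUnion.2 ⟨i, mem_univ i, hi⟩⟩
  have h2 : ∀ a ∈ (T.addrs (m (ov ρ x))).toFinset,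
      (univ.biUnion fun i : Fin w => (J a i).reads x).card ≤ w * s := by
    intro a _
    refine (card_biUnion_le).trans ?_
    refine (sum_le_card_nsmul univ _ s fun i _ => ((J a i).card_reads x).trans (hs a i)).trans ?_
    rw [card_univ, Fintype.card_fin, smul_eq_mul]
  refine (card_le_card h1).trans ((card_biUnion_le_card_mul _ _ _ h2).trans ?_)
  exact Nat.mul_le_mul_right _ (List.toFinset_card_le _)

lemma fl_tree (F : Finset (Fin n × Fin K)) (x : Fin n × Fin K → Bool)
    (hF : Disjoint F (rd m T ρ J x)) (a : A) (ha : a ∈ T.addrs (m (ov ρ x))) (i : Fin w) :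
    (J a i).eval (fl F x) = (J a i).eval x ∧ (J a i).reads (fl F x) = (J a i).reads x := by
  apply Pool.Agent.TH163.AC3.Tree.congr
  intro e he
  unfold fl
  rw [if_neg]
  intro h3
  apply (Finset.disjoint_left.1 hF) h3
  unfold rd
  rw [Finset.mem_filter]
  exact ⟨Finset.mem_univ _, a, ha, i, he⟩

lemma fl_run (hJ : ∀ a i x, (J a i).eval x = m (ov ρ x) a i)
    (F : Finset (Fin n × Fin K)) (x : Fin n × Fin K → Bool)
    (hF : Disjoint F (rd m T ρ J x)) :
    T.out (m (ov ρ (fl F x))) = T.out (m (ov ρ x)) ∧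
      T.addrs (m (ov ρ (fl F x))) = T.addrs (m (ov ρ x)) := by
  apply prog_congr
  intro a ha
  funext i
  have h2 := (fl_tree m T ρ J F x hF a ha i).1
  rw [hJ, hJ] at h2
  exact h2

lemma fl_rd (hJ : ∀ a i x, (J a i).eval x = m (ov ρ x) a i)
    (F : Finset (Fin n × Fin K)) (x : Fin n × Fin K → Bool)
    (hF : Disjoint F (rd m T ρ J x)) : rd m T ρ J (fl F x) = rd m T ρ J x := by
  classical
  unfold rd
  rw [(fl_run m T ρ J hJ F x hF).2]
  apply Finset.filter_congr
  intro e _
  constructor
  · rintro ⟨a, ha, i, hi⟩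
    refine ⟨a, ha, i, ?_⟩
    rw [← (fl_tree m T ρ J F x hF a ha i).2]
    exact hi
  · rintro ⟨a, ha, i, hi⟩
    refine ⟨a, ha, i, ?_⟩
    rw [(fl_tree m T ρ J F x hF a ha i).2]
    exact hi

end

/-- the columns of a set in row `r` -/
def cols {n K : ℕ} (R : Finset (Fin n × Fin K)) (r : Fin n) : Finset (Fin K) :=
  univ.filter fun c => (r, c) ∈ R

/-- the rows with less than `D0` entries in `R` -/
def few {n K : ℕ} (D0 : ℕ) (R : Finset (Fin n × Fin K)) : Finset (Fin n) :=
  univ.filter fun r => (cols R r).card < D0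

lemma few_ge {n K : ℕ} (D0 m' B : ℕ) (hD : 1 ≤ D0) (R : Finset (Fin n × Fin K)) (hR : R.card ≤ B)
    (h : D0 * m' + B ≤ n * D0) : m' ≤ (few D0 R).card := by
  classical
  have h1 : ∑ r : Fin n, (cols R r).card = R.card := by
    have h2 : R.card = ∑ r : Fin n, (R.filter (fun e => e.1 = r)).card :=
      card_eq_sum_card_fiberwise (fun e _ => mem_univ e.1)
    rw [h2]
    refine sum_congr rfl fun r _ => ?_
    apply card_nbij' (fun c => (r, c)) (fun e => e.2)
    · intro c hc
      exact mem_filter.2 ⟨(mem_filter.1 hc).2, rfl⟩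
    · intro e he
      obtain ⟨he1, he2⟩ := mem_filter.1 he
      refine mem_filter.2 ⟨mem_univ _, ?_⟩
      rw [← he2]
      exact he1
    · intro c _
      rfl
    · intro e he
      obtain ⟨he1, he2⟩ := mem_filter.1 he
      rw [← he2]
  have h2 : (univ.filter fun r : Fin n => ¬ (cols R r).card < D0).card * D0 ≤ R.card := by
    rw [← h1]
    refine le_trans ?_ (sum_le_sum_of_subset (filter_subset (fun r => ¬ (cols R r).card < D0) univ))
    rw [← smul_eq_mul]
    apply card_nsmul_le_sum
    intro r hr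
    exact not_lt.1 (mem_filter.1 hr).2
  have h3 : (few D0 R).card + (univ.filter fun r : Fin n => ¬ (cols R r).card < D0).card = n := by
    have := card_filter_add_card_filter_not (s := (univ : Finset (Fin n)))
      (fun r => (cols R r).card < D0)
    rw [card_univ, Fintype.card_fin] at this
    exact this
  by_contra h4
  have h5 : (few D0 R).card + 1 ≤ m' := by omega
  have h6 : D0 * ((few D0 R).card + 1) ≤ D0 * m' := Nat.mul_le_mul_left _ h5
  have h7 : n * D0 = (few D0 R).card * D0 +
      (univ.filter fun r : Fin n => ¬ (cols R r).card < D0).card * D0 := by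
    rw [← add_mul, h3]
  have h8 : D0 * ((few D0 R).card + 1) = (few D0 R).card * D0 + D0 := by ring
  omega

/-- the entries chosen in the rows `S` -/
def sel {n K : ℕ} (c : Fin n → Fin K) (S : Finset (Fin n)) : Finset (Fin n × Fin K) :=
  univ.filter fun e => e.1 ∈ S ∧ e.2 = c e.1

lemma par_fl {n K : ℕ} (ρ : Restr (Fin n × Fin K)) (c : Fin n → Fin K) (S : Finset (Fin n))
    (hc : ∀ r ∈ S, ρ (r, c r) = none) (x : Fin n × Fin K → Bool) (r : Fin n) :
    par (ov ρ (fl (sel c S) x)) r = par (ov ρ x) r + if r ∈ S then 1 else 0 := by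
  classical
  unfold par
  have h1 : ∀ k : Fin K, (if ov ρ (fl (sel c S) x) (r, k) = true then (1 : ZMod 2) else 0) =
      (if ov ρ x (r, k) = true then 1 else 0) + if k = c r then (if r ∈ S then 1 else 0) else 0 := by
    intro k
    by_cases hk : k = c r
    · subst hk
      rw [if_pos rfl]
      by_cases hr : r ∈ S
      · have h2 : (r, c r) ∈ sel c S := mem_filter.2 ⟨mem_univ _, hr, rfl⟩
        have h3 : ov ρ (fl (sel c S) x) (r, c r) = !(x (r, c r)) := by
          unfold ov fl
          rw [hc r hr, if_pos h2]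
          rfl
        have h4 : ov ρ x (r, c r) = x (r, c r) := by
          unfold ov
          rw [hc r hr]
          rfl
        rw [h3, h4, if_pos hr]
        cases x (r, c r) <;> decide
      · have h2 : (r, c r) ∉ sel c S := fun h => hr (mem_filter.1 h).2.1
        have h3 : ov ρ (fl (sel c S) x) (r, c r) = ov ρ x (r, c r) := by
          unfold ov fl
          rw [if_neg h2]
        rw [h3, if_neg hr, add_zero]
    · have h2 : (r, k) ∉ sel c S := fun h => hk (mem_filter.1 h).2.2
      have h3 : ov ρ (fl (sel c S) x) (r, k) = ov ρ x (r, k) := by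
        unfold ov fl
        rw [if_neg h2]
      rw [h3, if_neg hk, add_zero]
  rw [sum_congr rfl fun k _ => h1 k, sum_add_distrib, sum_ite_eq' univ (c r), if_pos (mem_univ _)]

theorem run : Pool.Agent.Helper89K9.MA.S_RUN := by
  classical
  intro n K w A m T u ρ s D0 m' τ hDT hfree hD0 hB
  choose J hJd hJe using hDT
  have hJ : ∀ a i x, (J a i).eval x = m (ov ρ x) a i := fun a i x => hJe a i x
  -- the choice of a free entry outside a small set
  have hch : ∀ (R : Finset (Fin n × Fin K)) (r : Fin n), ∃ c : Fin K,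
      r ∈ few D0 R → ρ (r, c) = none ∧ (r, c) ∉ R := by
    intro R r
    have hne : (univ.filter fun c => ρ (r, c) = none).Nonempty := by
      rw [← card_pos]
      exact lt_of_lt_of_le hD0 (hfree r)
    by_cases hr : r ∈ few D0 R
    · have h1 : (cols R r).card < D0 := (mem_filter.1 hr).2
      have h2 : ¬ (univ.filter fun c => ρ (r, c) = none) ⊆ cols R r := by
        intro h3
        have := card_le_card h3
        have h4 := hfree r
        omega
      obtain ⟨c, hc1, hc2⟩ := not_subset.1 h2
      refine ⟨c, fun _ => ⟨(mem_filter.1 hc1).2, fun h3 => hc2 ?_⟩⟩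
      exact mem_filter.2 ⟨mem_univ _, h3⟩
    · obtain ⟨c, _⟩ := hne
      exact ⟨c, fun h => absurd h hr⟩
  choose c hc using hch
  obtain ⟨R, hR⟩ : ∃ R : (Fin n × Fin K → Bool) → Finset (Fin n × Fin K),
      R = rd m T ρ J := ⟨_, rfl⟩
  obtain ⟨G, hG⟩ : ∃ G : Finset (Fin n × Fin K → Bool), G = univ.filter
      (fun z : Fin n × Fin K → Bool => T.out (m (ov ρ z)) = u + par (ov ρ z) ∧
        (T.addrs (m (ov ρ z))).length ≤ τ) := ⟨_, rfl⟩
  rw [← hG]
  have hGm : ∀ z, z ∈ G ↔ T.out (m (ov ρ z)) = u + par (ov ρ z) ∧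
        (T.addrs (m (ov ρ z))).length ≤ τ := by
    intro z
    rw [hG, mem_filter]
    exact ⟨fun h => h.2, fun h => ⟨mem_univ _, h⟩⟩
  have hfew : ∀ z ∈ G, m' ≤ (few D0 (R z)).card := by
    intro z hz
    apply few_ge D0 m' (τ * (w * s)) hD0 _ _ hB
    rw [hR]
    exact (card_rd m T ρ J s hJd z).trans (Nat.mul_le_mul_right _ ((hGm z).1 hz).2)
  have hdis : ∀ z S, S ⊆ few D0 (R z) → Disjoint (sel (c (R z)) S) (rd m T ρ J z) := by
    intro z S hS
    rw [Finset.disjoint_left]
    intro e he h2
    obtain ⟨h3, h4⟩ := (mem_filter.1 he).2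
    have h5 := (hc (R z) e.1 (hS h3)).2
    apply h5
    rw [← h4, hR]
    exact h2
  have hcard : (G.sigma (fun z => (few D0 (R z)).powerset)).card ≤
      (univ : Finset (Fin n × Fin K → Bool)).card := by
    apply Finset.card_le_card_of_injOn (fun p => fl (sel (c (R p.1)) p.2) p.1)
    · intro p _
      exact Finset.mem_coe.2 (Finset.mem_univ _)
    · rintro ⟨x, S⟩ hx ⟨x', S'⟩ hx' hxx
      have hx1 : ((⟨x, S⟩ : (_ : Fin n × Fin K → Bool) × Finset (Fin n))) ∈
        G.sigma (fun z => (few D0 (R z)).powerset) := hx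
      have hx1' : ((⟨x', S'⟩ : (_ : Fin n × Fin K → Bool) × Finset (Fin n))) ∈
        G.sigma (fun z => (few D0 (R z)).powerset) := hx'
      rw [Finset.mem_sigma, Finset.mem_powerset] at hx1 hx1'
      obtain ⟨hr, hS⟩ := hx1
      obtain ⟨hr', hS'⟩ := hx1'
      simp only at hS hS' hr hr'
      have hg := ((hGm x).1 hr).1
      have hg' := ((hGm x').1 hr').1
      have hxx' : fl (sel (c (R x)) S) x = fl (sel (c (R x')) S') x' := hxx
      have e1 : R x = R x' := by
        have h1 := fl_rd m T ρ J hJ _ x (hdis x S hS)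
        have h2 := fl_rd m T ρ J hJ _ x' (hdis x' S' hS')
        rw [hR, ← h1, ← h2, hxx']
      have e2 : T.out (m (ov ρ x)) = T.out (m (ov ρ x')) := by
        rw [← (fl_run m T ρ J hJ _ x (hdis x S hS)).1,
          ← (fl_run m T ρ J hJ _ x' (hdis x' S' hS')).1, hxx']
      have e3 : par (ov ρ x) = par (ov ρ x') := by
        rw [hg, hg'] at e2
        exact add_left_cancel e2
      have hfr : ∀ z S, S ⊆ few D0 (R z) → ∀ r ∈ S, ρ (r, c (R z) r) = none := by
        intro z S hS r hrS
        exact (hc (R z) r (hS hrS)).1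
      have e4 : S = S' := by
        ext r
        have h1 := par_fl ρ (c (R x)) S (hfr x S hS) x r
        have h2 := par_fl ρ (c (R x')) S' (hfr x' S' hS') x' r
        rw [hxx', h2, e3] at h1
        have h3 := add_left_cancel h1
        by_cases ha : r ∈ S <;> by_cases hb : r ∈ S'
        · exact ⟨fun _ => hb, fun _ => ha⟩
        · rw [if_pos ha, if_neg hb] at h3
          exact absurd h3 (by decide)
        · rw [if_neg ha, if_pos hb] at h3
          exact absurd h3 (by decide)
        · exact ⟨fun h => absurd h ha, fun h => absurd h hb⟩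
      have e6 : x = x' := by
        have h1 : fl (sel (c (R x)) S) (fl (sel (c (R x)) S) x) = x := fl_fl _ x
        have h2 : fl (sel (c (R x')) S') (fl (sel (c (R x')) S') x') = x' := fl_fl _ x'
        rw [← h1, ← h2, hxx', e1, e4]
      subst e6
      subst e4
      rfl
  rw [Finset.card_sigma, Finset.card_univ] at hcard
  have h1 : G.card * 2 ^ m' ≤ ∑ z ∈ G, ((few D0 (R z)).powerset).card := by
    rw [← smul_eq_mul]
    apply card_nsmul_le_sum
    intro z hz
    rw [card_powerset]
    exact Nat.pow_le_pow_right (by norm_num) (hfew z hz)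
  refine (h1.trans hcard).trans (le_of_eq ?_)
  rw [Fintype.card_fun, Fintype.card_bool, Fintype.card_prod, Fintype.card_fin, Fintype.card_fin]

end Pool.Agent.Helper36K9.MA
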